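import Pool.Agent.Lib.D8.CorankQ

/-!
# Modules with `dim M / f M ≤ 2` lie in the curvilinear component of the punctual Quot scheme

Let `k` be an algebraically closed field of characteristic `0`, `S = k[x_1,x_2,x_3]`,
`m = (x_1,x_2,x_3)`, `r, d ≥ 1`. `PQuot k r d` is the set of closed points of `Quot_r^d(A^3, 0)`:
the submodules `K ⊆ S^r` with `M = S^r / K` of dimension `d` and annihilated by a power of `m`; its
topology is the Zariski topology. `Curv k r d` is the curvilinear locus: `f^(d-1) M ≠ 0` for some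
`f ∈ m`.

The definitions (`S`, `orig`, `SuppOrig`, `PQuot`, `IsFrame`, `coord`, `IsZClosed`, the topology,
`Curv`) are in `Pool/Agent/Lib/TSQ/Defs.lean`; `addMul K f = K + f S^r` and
`Cor k r d` (the points with `dim M / f M ≤ 2` for some `f ∈ m`) are in
`Pool/Agent/Lib/D8/CorankQ.lean`.
-/

namespace Pool.Agent.Results.MP_5dcbc3_ag.CorankTwo

open Pool.Agent.Lib.TSQ Pool.Agent.Lib.D8

universe u

/-- For all `r, d ≥ 1`: (1) the locus of the points with `dim M / f M ≤ 2` for some `f ∈ m` is
open in the punctual Quot scheme; (2) it lies in the closure of the curvilinear locus; (3) at every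
point of every other irreducible component `dim M / f M ≥ 3` for all `f ∈ m`. -/
theorem result (k : Type u) [Field k] [IsAlgClosed k] [CharZero k] (r d : ℕ) (hr : 0 < r)
    (hd : 0 < d) :
    IsOpen (Cor k r d) ∧ Cor k r d ⊆ closure (Curv k r d) ∧
    ∀ C ∈ irreducibleComponents (PQuot k r d), C ≠ closure (Curv k r d) →
      ∀ K ∈ C, ∀ f ∈ orig k, 3 ≤ Module.finrank k ((Fin r → S k) ⧸ addMul K.K f) := by
  refine ⟨isOpen_cor k r d, cor_subset hr hd, fun C hC hne K hK f hf => ?_⟩
  by_contra hlt
  exact (Set.disjoint_left.1 (cor_disjoint hr hd hC hne)) hK ⟨f, hf, by omega⟩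

end Pool.Agent.Results.MP_5dcbc3_ag.CorankTwo
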