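import Pool.Agent.Lib.D13r.Ans
import Pool.Agent.Lib.D13.Hall13

/-!
# The smallest degree of a reducible punctual Quot scheme on affine 3-space is 13

Let `k` be an algebraically closed field of characteristic `0`, `S = k[x_1,x_2,x_3]`,
`m = (x_1,x_2,x_3)`, `r, d ≥ 1`. `PQuot k r d` is the set of closed points of `Quot_r^d(A^3, 0)`:
the submodules `K ⊆ S^r` with `M = S^r / K` of dimension `d` and annihilated by a power of `m`; its
topology is the Zariski topology. `Reducible k r d`: this space is the union of two closed subsets,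
each different from the whole space. `Curv k r d` is the curvilinear locus: `f^(d-1) M ≠ 0` for some
`f ∈ m`.

The definitions (`S`, `orig`, `SuppOrig`, `PQuot`, `IsFrame`, `coord`, `IsZClosed`, the topology,
`Curv`) are in `Pool/Agent/Lib/TSQ/Defs.lean`, and `Reducible` is in `Pool/Agent/Lib/D13r/Ans.lean`.
-/

namespace Pool.Agent.Results.MP_5dcbc3_ag.SmallestDegree

open Pool.Agent.Lib.TSQ Pool.Agent.Lib.D13r

universe u

/-- The smallest `d ≥ 1` such that `Quot_r^d(A^3, 0)` is reducible for some `r ≥ 1` is `13`. For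
`1 ≤ d ≤ 12` it is irreducible for every `r ≥ 1`, with dense curvilinear locus, and for `d = 13` it
is reducible for every `r ≥ 13`. -/
theorem result (k : Type u) [Field k] [IsAlgClosed k] [CharZero k] :
    IsLeast {d : ℕ | 1 ≤ d ∧ ∃ r : ℕ, 1 ≤ r ∧ Reducible k r d} 13 ∧
    (∀ r d : ℕ, 1 ≤ r → 1 ≤ d → d ≤ 12 →
      IsIrreducible (Set.univ : Set (PQuot k r d)) ∧ Dense (Curv k r d)) ∧
    (∀ r : ℕ, 13 ≤ r → Reducible k r 13) :=
  have := IsAlgClosed.instInfinite (K := k)
  answer k (Pool.Agent.Lib.D13.all_cl_le12 k)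

end Pool.Agent.Results.MP_5dcbc3_ag.SmallestDegree
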