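import Pool.Agent.Lib.TSQ.Main

/-!
# Two-step modules lie in the curvilinear component of the punctual Quot scheme of affine 3-space

Let `k` be a field of characteristic `0`, `S = k[x_1,x_2,x_3]`, `m = (x_1,x_2,x_3)`, `r, d ≥ 1`.
`PQuot k r d` is the set of closed points of `Quot_r^d(A^3, 0)` (with values in `k`): the submodules
`K ⊆ S^r` with `M = S^r / K` of dimension `d` and annihilated by a power of `m`; its topology is the
Zariski topology. `Curv k r d` is the curvilinear locus: `f^(d-1) M ≠ 0` for some `f ∈ m`.

The definitions (`S`, `orig`, `SuppOrig`, `TwoStep` (`m² M = 0`), `PQuot`, `IsFrame`, `coord`, `IsZClosed`, the topology, `Curv`) are in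
`Pool/Agent/Lib/TSQ/Defs.lean`.
-/

namespace Pool.Agent.Results.MP_5dcbc3_ag.TwoStepModules

open Pool.Agent.Lib.TSQ

universe u

/-- (1) The curvilinear locus is open and irreducible and its closure is an irreducible component
of the punctual Quot scheme. (2) Every point with `m² M = 0` lies in this component. (3) Every other
irreducible component has a nonempty open part consisting of points with `m² M ≠ 0`. -/
theorem result (k : Type u) [Field k] [CharZero k] (r d : ℕ) (hr : 0 < r) (hd : 0 < d) :
    (IsOpen (Curv k r d) ∧ IsIrreducible (Curv k r d) ∧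
      closure (Curv k r d) ∈ irreducibleComponents (PQuot k r d)) ∧
    (∀ K : PQuot k r d, TwoStep K.K → K ∈ closure (Curv k r d)) ∧
    (∀ C ∈ irreducibleComponents (PQuot k r d), C ≠ closure (Curv k r d) →
      ∃ O : Set (PQuot k r d), IsOpen O ∧ (C ∩ O).Nonempty ∧
        ∀ K ∈ C ∩ O, ¬ TwoStep K.K) := by
  obtain ⟨h1, h2, h3⟩ := main (k := k) hr hd
  exact ⟨⟨isOpen_curv k r d, irred_curv hr hd, h1⟩, h2, h3⟩

end Pool.Agent.Results.MP_5dcbc3_ag.TwoStepModules
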